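import Pool.Agent.K4H35.PolyNet.Spec

/-!
The directional derivatives of the network `(2,6,5,38,1)` at the chosen point.
-/

set_option autoImplicit false

namespace Pool.Agent.K4H35.PolyNet

open Finset

section generic

variable {R : Type*} [CommRing R]

/-- second layer -/
def hh (al : ℕ → R) (u : ℕ → ℕ → R) (t : R) (k : ℕ) : R :=
  ∑ l ∈ range 6, u k l * (t + al l) ^ 6

/-- third layer -/
def qq (al : ℕ → R) (u m : ℕ → ℕ → R) (t : R) (j : ℕ) : R :=
  ∑ k ∈ range 5, m j k * (hh al u t k) ^ 6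

/-- output -/
def out (al : ℕ → R) (u m : ℕ → ℕ → R) (t : R) : R :=
  ∑ j ∈ range 38, (qq al u m t j) ^ 6

/-- adjoint variables of the second layer -/
def HH (al : ℕ → R) (u m : ℕ → ℕ → R) (t : R) (k : ℕ) : R :=
  (∑ j ∈ range 38, 6 * qq al u m t j ^ 5 * m j k) * (6 * hh al u t k ^ 5)

/-- adjoint variables of the first layer -/
def GG (al : ℕ → R) (u m : ℕ → ℕ → R) (t : R) (l : ℕ) : R :=
  (∑ k ∈ range 5, HH al u m t k * u k l) * (6 * (t + al l) ^ 5)

/-- the derivative of `out` in the direction `(da, du, dm)` -/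
def rev (al : ℕ → R) (u m : ℕ → ℕ → R) (da : ℕ → R) (du dm : ℕ → ℕ → R) (t : R) : R :=
  (∑ j ∈ range 38, 6 * qq al u m t j ^ 5 * ∑ k ∈ range 5, hh al u t k ^ 6 * dm j k) +
  (∑ k ∈ range 5, HH al u m t k * ∑ l ∈ range 6, (t + al l) ^ 6 * du k l) +
  ∑ l ∈ range 6, GG al u m t l * da l

theorem map_rev {S : Type*} [CommRing S] (f : R →+* S) (al : ℕ → R) (u m : ℕ → ℕ → R)
    (da : ℕ → R) (du dm : ℕ → ℕ → R) (t : R) :
    f (rev al u m da du dm t) = rev (fun l => f (al l)) (fun k l => f (u k l))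
      (fun j k => f (m j k)) (fun l => f (da l)) (fun k l => f (du k l)) (fun j k => f (dm j k))
      (f t) := by
  simp only [rev, HH, GG, qq, hh, map_add, map_sum, map_mul, map_pow, map_ofNat]

end generic

/-- weights of the first layer -/
def alN (l : ℕ) : ℕ := l
/-- weights of the second layer -/
def uN (k l : ℕ) : ℕ := (uL.getD k []).getD l 0
/-- weights of the third layer -/
def mN (j k : ℕ) : ℕ := (mL.getD j []).getD k 0
/-- the `i`-th direction, first layer -/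
def baN (i l : ℕ) : ℕ := (BaL.getD l 0) / X ^ i % X
/-- the `i`-th direction, second layer -/
def buN (i k l : ℕ) : ℕ := ((BuL.getD k []).getD l 0) / X ^ i % X
/-- the `i`-th direction, third layer -/
def bmN (i j k : ℕ) : ℕ := ((BmL.getD j []).getD k 0) / X ^ i % X

/-- value of the first layer, modulo 251 -/
def lsL (t : ℕ) : List ℕ := (List.range 6).map fun l => (t + l) % 251
def l5L (t : ℕ) : List ℕ := (lsL t).map p5
def l6L (t : ℕ) : List ℕ := (lsL t).map p6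
def hsL (t : ℕ) : List ℕ := uL.map fun row => dot row (l6L t) % 251
def h5L (t : ℕ) : List ℕ := (hsL t).map p5
def h6L (t : ℕ) : List ℕ := (hsL t).map p6
def q5L (t : ℕ) : List ℕ := mL.map fun row => 6 * p5 (dot row (h6L t) % 251) % 251
def HL (t : ℕ) : List ℕ :=
  (List.range 5).map fun k => dot (q5L t) (mL.map fun row => row.getD k 0) % 251 * 6 *
    (h5L t).getD k 0 % 251
def GLL (t : ℕ) : List ℕ :=
  (List.range 6).map fun l => dot (HL t) (uL.map fun row => row.getD l 0) % 251 * 6 *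
    (l5L t).getD l 0 % 251

theorem S_eq (t : ℕ) :
    S t = dot2 (h6L t) (q5L t) BmL + dot2 (l6L t) (HL t) BuL + dot (GLL t) BaL := by
  unfold S
  simp only [evalL_eq]
  rfl

theorem getD_map_nat {α : Type*} (l : List α) (f : α → ℕ) (i : ℕ) (d : α) (hd : f d = 0) :
    (l.map f).getD i 0 = f (l.getD i d) := by
  rw [← hd, List.getD_map]

theorem getD_rangemap (n : ℕ) (f : ℕ → ℕ) (i : ℕ) (h : i < n) :
    ((List.range n).map f).getD i 0 = f i := by
  rw [List.getD_eq_getElem?_getD, List.getElem?_map, List.getElem?_range h]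
  rfl

theorem p5_zero : p5 0 = 0 := rfl
theorem p6_zero : p6 0 = 0 := rfl

theorem p5_lt (x : ℕ) : p5 x < 251 := Nat.mod_lt _ (by norm_num)
theorem p6_lt (x : ℕ) : p6 x < 251 := Nat.mod_lt _ (by norm_num)

theorem cast_p5 (x : ℕ) : ((p5 x : ℕ) : ZMod 251) = (x : ZMod 251) ^ 5 := by
  unfold p5
  simp only [ZMod.natCast_mod, Nat.cast_mul]
  ring

theorem cast_p6 (x : ℕ) : ((p6 x : ℕ) : ZMod 251) = (x : ZMod 251) ^ 6 := by
  unfold p6
  simp only [ZMod.natCast_mod, Nat.cast_mul]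
  ring

theorem lenu : uL.length ≤ 5 := by decide
theorem lenm : mL.length ≤ 38 := by decide
theorem lenur : ∀ k, (uL.getD k []).length ≤ 6 := by
  intro k
  by_cases h : k < 5
  · interval_cases k <;> decide
  · have : uL.length ≤ k := le_trans lenu (by omega)
    simp [List.getD_eq_getElem?_getD, List.getElem?_eq_none this]
theorem lenmr0 : ∀ x ∈ mL, x.length ≤ 5 := by decide
theorem lenmr : ∀ k, (mL.getD k []).length ≤ 5 := by
  intro k
  by_cases h : k < mL.length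
  · rw [List.getD_eq_getElem _ _ h]
    exact lenmr0 _ (List.getElem_mem h)
  · simp [List.getD_eq_getElem?_getD, List.getElem?_eq_none (not_lt.1 h)]


theorem lt_getD (l : List ℕ) (h : ∀ x ∈ l, x < 251) (i : ℕ) : l.getD i 0 < 251 := by
  by_cases hi : i < l.length
  · rw [List.getD_eq_getElem _ _ hi]
    exact h _ (List.getElem_mem hi)
  · simp [List.getD_eq_getElem?_getD, List.getElem?_eq_none (not_lt.1 hi)]

theorem q5_lt (t i : ℕ) : (q5L t).getD i 0 < 251 := by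
  refine lt_getD _ (fun x hx => ?_) i
  obtain ⟨y, _, rfl⟩ := List.mem_map.1 hx
  exact Nat.mod_lt _ (by norm_num)

theorem h6_lt (t i : ℕ) : (h6L t).getD i 0 < 251 := by
  refine lt_getD _ (fun x hx => ?_) i
  obtain ⟨y, _, rfl⟩ := List.mem_map.1 hx
  exact p6_lt _

theorem l6_lt (t i : ℕ) : (l6L t).getD i 0 < 251 := by
  refine lt_getD _ (fun x hx => ?_) i
  obtain ⟨y, _, rfl⟩ := List.mem_map.1 hx
  exact p6_lt _

theorem H_lt (t i : ℕ) : (HL t).getD i 0 < 251 := by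
  refine lt_getD _ (fun x hx => ?_) i
  obtain ⟨y, _, rfl⟩ := List.mem_map.1 hx
  exact Nat.mod_lt _ (by norm_num)

theorem G_lt (t i : ℕ) : (GLL t).getD i 0 < 251 := by
  refine lt_getD _ (fun x hx => ?_) i
  obtain ⟨y, _, rfl⟩ := List.mem_map.1 hx
  exact Nat.mod_lt _ (by norm_num)

/-- weights modulo 251 -/
abbrev alZ (l : ℕ) : ZMod 251 := (alN l : ZMod 251)
abbrev uZ (k l : ℕ) : ZMod 251 := (uN k l : ZMod 251)
abbrev mZ (j k : ℕ) : ZMod 251 := (mN j k : ZMod 251)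

theorem cast_ls (t l : ℕ) (h : l < 6) :
    (((lsL t).getD l 0 : ℕ) : ZMod 251) = (t : ZMod 251) + alZ l := by
  rw [lsL, getD_rangemap _ _ _ h]
  simp [alZ, alN, ZMod.natCast_mod]

theorem cast_l5 (t l : ℕ) (h : l < 6) :
    (((l5L t).getD l 0 : ℕ) : ZMod 251) = ((t : ZMod 251) + alZ l) ^ 5 := by
  rw [l5L, getD_map_nat _ _ _ 0 p5_zero, cast_p5, cast_ls t l h]

theorem cast_l6 (t l : ℕ) (h : l < 6) :
    (((l6L t).getD l 0 : ℕ) : ZMod 251) = ((t : ZMod 251) + alZ l) ^ 6 := by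
  rw [l6L, getD_map_nat _ _ _ 0 p6_zero, cast_p6, cast_ls t l h]

theorem cast_hs (t k : ℕ) :
    (((hsL t).getD k 0 : ℕ) : ZMod 251) = hh alZ uZ (t : ZMod 251) k := by
  rw [hsL, getD_map_nat _ _ _ [] (by simp [dot]), dot_eq _ _ 6 (lenur k), ZMod.natCast_mod,
    Nat.cast_sum, hh]
  refine sum_congr rfl fun l hl => ?_
  rw [Nat.cast_mul, cast_l6 t l (mem_range.1 hl)]
  rfl

theorem cast_h5 (t k : ℕ) :
    (((h5L t).getD k 0 : ℕ) : ZMod 251) = hh alZ uZ (t : ZMod 251) k ^ 5 := by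
  rw [h5L, getD_map_nat _ _ _ 0 p5_zero, cast_p5, cast_hs]

theorem cast_h6 (t k : ℕ) :
    (((h6L t).getD k 0 : ℕ) : ZMod 251) = hh alZ uZ (t : ZMod 251) k ^ 6 := by
  rw [h6L, getD_map_nat _ _ _ 0 p6_zero, cast_p6, cast_hs]

theorem cast_q5 (t j : ℕ) :
    (((q5L t).getD j 0 : ℕ) : ZMod 251) = 6 * qq alZ uZ mZ (t : ZMod 251) j ^ 5 := by
  rw [q5L, getD_map_nat _ _ _ [] (by simp [dot, p5]), dot_eq _ _ 5 (lenmr j), ZMod.natCast_mod,
    Nat.cast_mul, cast_p5, ZMod.natCast_mod, Nat.cast_sum, qq]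
  have key : ∑ k ∈ range 5, (((mL.getD j []).getD k 0 * (h6L t).getD k 0 : ℕ) : ZMod 251) =
      ∑ k ∈ range 5, mZ j k * hh alZ uZ (t : ZMod 251) k ^ 6 := by
    refine sum_congr rfl fun k hk => ?_
    rw [Nat.cast_mul, cast_h6]
    rfl
  rw [key]
  norm_num

theorem cast_H (t k : ℕ) (h : k < 5) :
    (((HL t).getD k 0 : ℕ) : ZMod 251) = HH alZ uZ mZ (t : ZMod 251) k := by
  rw [HL, getD_rangemap _ _ _ h, dot_eq _ _ 38 (by simpa [q5L] using lenm), ZMod.natCast_mod,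
    Nat.cast_mul, Nat.cast_mul, ZMod.natCast_mod, Nat.cast_sum, HH, cast_h5, mul_assoc]
  have key : ∑ j ∈ range 38, (((q5L t).getD j 0 * (mL.map fun row => row.getD k 0).getD j 0 : ℕ) :
      ZMod 251) = ∑ j ∈ range 38, 6 * qq alZ uZ mZ (t : ZMod 251) j ^ 5 * mZ j k := by
    refine sum_congr rfl fun j hj => ?_
    rw [Nat.cast_mul, cast_q5, getD_map_nat _ _ _ [] (by simp)]
    rfl
  rw [key]
  norm_num

theorem cast_G (t l : ℕ) (h : l < 6) :
    (((GLL t).getD l 0 : ℕ) : ZMod 251) = GG alZ uZ mZ (t : ZMod 251) l := by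
  rw [GLL, getD_rangemap _ _ _ h, dot_eq _ _ 5 (by simp [HL]), ZMod.natCast_mod,
    Nat.cast_mul, Nat.cast_mul, ZMod.natCast_mod, Nat.cast_sum, GG, cast_l5 t l h, mul_assoc]
  have key : ∑ k ∈ range 5, (((HL t).getD k 0 * (uL.map fun row => row.getD l 0).getD k 0 : ℕ) :
      ZMod 251) = ∑ k ∈ range 5, HH alZ uZ mZ (t : ZMod 251) k * uZ k l := by
    refine sum_congr rfl fun k hk => ?_
    rw [Nat.cast_mul, cast_H t k (mem_range.1 hk), getD_map_nat _ _ _ [] (by simp)]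
    rfl
  rw [key]
  norm_num

/-- the `i`-th digit of the packed value -/
def cc (t i : ℕ) : ℕ :=
  (∑ j ∈ range 38, (q5L t).getD j 0 * ∑ k ∈ range 5, (h6L t).getD k 0 * bmN i j k) +
  (∑ k ∈ range 5, (HL t).getD k 0 * ∑ l ∈ range 6, (l6L t).getD l 0 * buN i k l) +
  ∑ l ∈ range 6, (GLL t).getD l 0 * baN i l

theorem comb_cast (n m : ℕ) (a h : ℕ → ℕ) (B : ℕ → ℕ → ℕ) (a' h' : ℕ → ZMod 251)
    (ha : ∀ j < n, (a j : ZMod 251) = a' j) (hh : ∀ j < m, (h j : ZMod 251) = h' j) :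
    ((∑ j ∈ range n, a j * ∑ k ∈ range m, h k * B j k : ℕ) : ZMod 251) =
      ∑ j ∈ range n, a' j * ∑ k ∈ range m, h' k * (B j k : ZMod 251) := by
  push_cast
  refine sum_congr rfl fun j hj => ?_
  rw [ha j (mem_range.1 hj)]
  congr 1
  refine sum_congr rfl fun k hk => ?_
  rw [hh k (mem_range.1 hk)]

theorem comb_cast1 (n : ℕ) (a : ℕ → ℕ) (B : ℕ → ℕ) (a' : ℕ → ZMod 251)
    (ha : ∀ j < n, (a j : ZMod 251) = a' j) :
    ((∑ j ∈ range n, a j * B j : ℕ) : ZMod 251) =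
      ∑ j ∈ range n, a' j * (B j : ZMod 251) := by
  push_cast
  refine sum_congr rfl fun j hj => ?_
  rw [ha j (mem_range.1 hj)]

theorem cast_cc (t i : ℕ) : ((cc t i : ℕ) : ZMod 251) =
    rev alZ uZ mZ (fun l => (baN i l : ZMod 251)) (fun k l => (buN i k l : ZMod 251))
      (fun j k => (bmN i j k : ZMod 251)) (t : ZMod 251) := by
  rw [cc, rev, Nat.cast_add, Nat.cast_add,
    comb_cast 38 5 _ _ (fun j k => bmN i j k) _ _ (fun j _ => cast_q5 t j) (fun k _ => cast_h6 t k),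
    comb_cast 5 6 _ _ (fun j k => buN i j k) _ _ (fun j h => cast_H t j h)
      (fun k h => cast_l6 t k h),
    comb_cast1 6 _ (fun j => baN i j) _ (fun j h => cast_G t j h)]

theorem comb_X (n m N : ℕ) (a h : ℕ → ℕ) (B : ℕ → ℕ → ℕ → ℕ) :
    ∑ j ∈ range n, a j * ∑ k ∈ range m, h k * ∑ i ∈ range N, B i j k * X ^ i =
      ∑ i ∈ range N, (∑ j ∈ range n, a j * ∑ k ∈ range m, h k * B i j k) * X ^ i := by
  simp only [mul_sum, sum_mul]
  rw [sum_congr rfl fun j _ => sum_comm, sum_comm]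
  refine sum_congr rfl fun i _ => sum_congr rfl fun j _ => sum_congr rfl fun k _ => by ring

theorem comb_X1 (n N : ℕ) (a : ℕ → ℕ) (B : ℕ → ℕ → ℕ) :
    ∑ j ∈ range n, a j * ∑ i ∈ range N, B i j * X ^ i =
      ∑ i ∈ range N, (∑ j ∈ range n, a j * B i j) * X ^ i := by
  simp only [mul_sum, sum_mul]
  rw [sum_comm]
  refine sum_congr rfl fun i _ => sum_congr rfl fun j _ => by ring

theorem comb_le (n m : ℕ) (a h : ℕ → ℕ) (B : ℕ → ℕ → ℕ) (ha : ∀ j, a j < 251)
    (hh : ∀ j, h j < 251) (hB : ∀ j k, B j k < 251) :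
    ∑ j ∈ range n, a j * ∑ k ∈ range m, h k * B j k ≤ n * (251 * (m * (251 * 251))) := by
  refine (sum_le_card_nsmul (range n) _ (251 * (m * (251 * 251))) fun j _ => ?_).trans (by simp)
  refine Nat.mul_le_mul (ha j).le ?_
  refine (sum_le_card_nsmul (range m) _ (251 * 251) fun k _ => ?_).trans (by simp)
  exact Nat.mul_le_mul (hh k).le (hB j k).le

theorem comb_le1 (n : ℕ) (a : ℕ → ℕ) (B : ℕ → ℕ) (ha : ∀ j, a j < 251)
    (hB : ∀ j, B j < 251) :
    ∑ j ∈ range n, a j * B j ≤ n * (251 * 251) := by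
  refine (sum_le_card_nsmul (range n) _ (251 * 251) fun j _ => ?_).trans (by simp)
  exact Nat.mul_le_mul (ha j).le (hB j).le

theorem goodm (j k : ℕ) : Good ((BmL.getD j []).getD k 0) := chkBLL_spec _ chk_BmL j k
theorem goodu (k l : ℕ) : Good ((BuL.getD k []).getD l 0) := chkBLL_spec _ chk_BuL k l
theorem gooda (l : ℕ) : Good (BaL.getD l 0) := chkBL_spec _ chk_BaL l

theorem bm_sum (j k : ℕ) :
    (BmL.getD j []).getD k 0 = ∑ i ∈ range 217, bmN i j k * X ^ i := undig 217 _ (goodm j k).1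
theorem bu_sum (j k : ℕ) :
    (BuL.getD j []).getD k 0 = ∑ i ∈ range 217, buN i j k * X ^ i := undig 217 _ (goodu j k).1
theorem ba_sum (j : ℕ) :
    BaL.getD j 0 = ∑ i ∈ range 217, baN i j * X ^ i := undig 217 _ (gooda j).1

theorem S_digits (t : ℕ) : S t = ∑ i ∈ range 217, cc t i * X ^ i := by
  rw [S_eq, dot2_eq _ _ _ 38 5 (by simpa [q5L] using lenm) (by simpa [h6L, hsL] using lenu),
    dot2_eq _ _ _ 5 6 (by simp [HL]) (by simp [l6L, lsL]), dot_eq _ _ 6 (by simp [GLL])]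
  simp only [bm_sum, bu_sum, ba_sum]
  rw [comb_X 38 5 217 _ _ bmN, comb_X 5 6 217 _ _ buN, comb_X1 6 217 _ baN,
    ← sum_add_distrib, ← sum_add_distrib]
  refine sum_congr rfl fun i _ => ?_
  rw [cc, add_mul, add_mul]

theorem cc_lt (t i : ℕ) (hi : i < 217) : cc t i < X := by
  have h1 := comb_le 38 5 (fun j => (q5L t).getD j 0) (fun k => (h6L t).getD k 0)
    (fun j k => bmN i j k) (q5_lt t) (h6_lt t) (fun j k => (goodm j k).2 i hi)
  have h2 := comb_le 5 6 (fun j => (HL t).getD j 0) (fun k => (l6L t).getD k 0)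
    (fun j k => buN i j k) (H_lt t) (l6_lt t) (fun j k => (goodu j k).2 i hi)
  have h3 := comb_le1 6 (fun j => (GLL t).getD j 0) (fun j => baN i j) (G_lt t)
    (fun j => (gooda j).2 i hi)
  rw [cc, X]
  refine lt_of_le_of_lt (add_le_add (add_le_add h1 h2) h3) (by norm_num)

/-- the matrix of directional derivatives is the identity modulo 251 -/
theorem cert (t i : ℕ) (ht : t < 217) (hi : i < 217) :
    rev alZ uZ mZ (fun l => (baN i l : ZMod 251)) (fun k l => (buN i k l : ZMod 251))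
      (fun j k => (bmN i j k : ZMod 251)) (t : ZMod 251) = if i = t then 1 else 0 := by
  rw [← cast_cc]
  have h1 := chkAll_spec 0 217 chk_all t ht
  rw [zero_add] at h1
  have h2 := chk_spec (S t) t 217 h1 i hi
  rw [S_digits, dig 217 (cc t) (fun i hi => cc_lt t i hi) i hi] at h2
  rw [← ZMod.natCast_mod, h2]
  split_ifs <;> simp

end Pool.Agent.K4H35.PolyNet
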