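import Pool.Agent.K4H35.PolyNet.Data

/-!
Kernel check of the certificate: a `217 × 217` matrix of directional derivatives of the network is
the identity matrix modulo `251`.
-/

set_option autoImplicit false

namespace Pool.Agent.K4H35.PolyNet

/-- evaluate `n` to a literal, then continue -/
def force {β : Type} (n : ℕ) (k : ℕ → β) : β :=
  Nat.rec (motive := fun _ => β) (k 0) (fun m _ => k (m + 1)) n

/-- evaluate all members of a list to literals, then continue -/
def evalL {β : Type} (l : List ℕ) (k : List ℕ → β) : β :=
  List.rec (motive := fun _ => (List ℕ → β) → β) (fun k => k [])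
    (fun a _ ih k => force a (fun a' => ih (fun as => k (a' :: as)))) l k

/-- sum of products -/
def dot (l : List ℕ) : List ℕ → ℕ :=
  List.rec (motive := fun _ => List ℕ → ℕ) (fun _ => 0)
    (fun a _ ih m => List.rec (motive := fun _ => ℕ) 0 (fun b bs _ => a * b + ih bs) m) l

/-- fifth power modulo 251 -/
def p5 (x : ℕ) : ℕ := (x * x % 251) * (x * x % 251) % 251 * x % 251

/-- sixth power modulo 251 -/
def p6 (x : ℕ) : ℕ := (x * x % 251) * (x * x % 251) % 251 * (x * x % 251) % 251

/-- `∑ j, c_j * dot h B_j` -/
def dot2 (h : List ℕ) (c : List ℕ) : List (List ℕ) → ℕ :=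
  List.rec (motive := fun _ => List (List ℕ) → ℕ) (fun _ => 0)
    (fun a _ ih m => List.rec (motive := fun _ => ℕ) 0 (fun b bs _ => a * dot h b + ih bs) m) c

/-- the packed value at the point `t` -/
def S (t : ℕ) : ℕ :=
  evalL ((List.range 6).map fun l => (t + l) % 251) fun ls =>
  evalL (ls.map p5) fun l5 =>
  evalL (ls.map p6) fun l6 =>
  evalL (uL.map fun row => dot row l6 % 251) fun hs =>
  evalL (hs.map p5) fun h5 =>
  evalL (hs.map p6) fun h6 =>
  evalL (mL.map fun row => 6 * p5 (dot row h6 % 251) % 251) fun q5 =>
  evalL ((List.range 5).map fun k => dot q5 (mL.map fun row => row.getD k 0) % 251 * 6 *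
    h5.getD k 0 % 251) fun H =>
  evalL ((List.range 6).map fun l => dot H (uL.map fun row => row.getD l 0) % 251 * 6 *
    l5.getD l 0 % 251) fun G =>
  dot2 h6 q5 BmL + dot2 l6 H BuL + dot G BaL

/-- the base of the packed numbers, `2 ^ 40` -/
def X : ℕ := 1099511627776

/-- the first `m` digits of `n` in base `X` are `≡ 0 (mod 251)` except that the digit `t`
is `≡ 1` -/
def chk (n t m : ℕ) : Bool :=
  Nat.rec (motive := fun _ => Bool) true
    (fun k ih => ih && Nat.beq (n / X ^ k % X % 251) (cond (Nat.beq k t) 1 0)) m

/-- check the points `a ≤ t < a + n` -/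
def chkAll (a n : ℕ) : Bool :=
  Nat.rec (motive := fun _ => Bool) true
    (fun k ih => ih && force (S (a + k)) fun x => chk x (a + k) 217) n

/-- the first `m` digits of `n` in base `X` are smaller than 251 -/
def chkB (n m : ℕ) : Bool :=
  Nat.rec (motive := fun _ => Bool) true
    (fun k ih => ih && Nat.blt (n / X ^ k % X) 251) m

/-- all members of the list have 217 digits, smaller than 251 -/
def chkBL (l : List ℕ) : Bool :=
  List.rec (motive := fun _ => Bool) true
    (fun n _ ih => Nat.blt n (X ^ 217) && chkB n 217 && ih) l

/-- all members of the lists have 217 digits, smaller than 251 -/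
def chkBLL (l : List (List ℕ)) : Bool :=
  List.rec (motive := fun _ => Bool) true
    (fun n _ ih => chkBL n && ih) l

theorem chk_all : chkAll 0 217 = true := by decide +kernel

theorem chk_BmL : chkBLL BmL = true := by decide +kernel

theorem chk_BuL : chkBLL BuL = true := by decide +kernel

theorem chk_BaL : chkBL BaL = true := by decide +kernel

end Pool.Agent.K4H35.PolyNet
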