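import Pool.Agent.K4H35.PolyNet.Cert

/-!
The values of the network `(2,6,5,38,1)` with activation `x ^ 6` at the points `0, ..., 216` fill an
open set.
-/

set_option autoImplicit false

namespace Pool.Agent.K4H35.PolyNet

open Finset

theorem hasDerivAt_hh (al : ℕ → ℂ) (u : ℕ → ℕ → ℂ) (da : ℕ → ℂ) (du : ℕ → ℕ → ℂ) (t : ℂ) (k : ℕ) :
    HasDerivAt (fun e : ℂ => hh (fun l => al l + e * da l) (fun k l => u k l + e * du k l) t k)
      (∑ l ∈ range 6, (du k l * (t + al l) ^ 6 + u k l * (6 * (t + al l) ^ 5 * da l))) 0 := by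
  unfold hh
  refine HasDerivAt.fun_sum fun l _ => ?_
  have h1 : HasDerivAt (fun e : ℂ => u k l + e * du k l) (du k l) 0 := by
    simpa using ((hasDerivAt_id (0 : ℂ)).mul_const (du k l)).const_add (u k l)
  have h2 : HasDerivAt (fun e : ℂ => t + (al l + e * da l)) (da l) 0 := by
    simpa using (((hasDerivAt_id (0 : ℂ)).mul_const (da l)).const_add (al l)).const_add t
  have h3 := h1.fun_mul (h2.fun_pow 6)
  simpa using h3

theorem hasDerivAt_qq (al : ℕ → ℂ) (u m : ℕ → ℕ → ℂ) (da : ℕ → ℂ) (du dm : ℕ → ℕ → ℂ) (t : ℂ)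
    (j : ℕ) :
    HasDerivAt (fun e : ℂ => qq (fun l => al l + e * da l) (fun k l => u k l + e * du k l)
        (fun j k => m j k + e * dm j k) t j)
      (∑ k ∈ range 5, (dm j k * hh al u t k ^ 6 + m j k * (6 * hh al u t k ^ 5 *
        ∑ l ∈ range 6, (du k l * (t + al l) ^ 6 + u k l * (6 * (t + al l) ^ 5 * da l))))) 0 := by
  unfold qq
  refine HasDerivAt.fun_sum fun k _ => ?_
  have h1 : HasDerivAt (fun e : ℂ => m j k + e * dm j k) (dm j k) 0 := by
    simpa using ((hasDerivAt_id (0 : ℂ)).mul_const (dm j k)).const_add (m j k)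
  have h3 := h1.fun_mul ((hasDerivAt_hh al u da du t k).fun_pow 6)
  simpa using h3

theorem hasDerivAt_out (al : ℕ → ℂ) (u m : ℕ → ℕ → ℂ) (da : ℕ → ℂ) (du dm : ℕ → ℕ → ℂ) (t : ℂ) :
    HasDerivAt (fun e : ℂ => out (fun l => al l + e * da l) (fun k l => u k l + e * du k l)
        (fun j k => m j k + e * dm j k) t) (rev al u m da du dm t) 0 := by
  have h : HasDerivAt (fun e : ℂ => out (fun l => al l + e * da l) (fun k l => u k l + e * du k l)
        (fun j k => m j k + e * dm j k) t)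
      (∑ j ∈ range 38, 6 * qq al u m t j ^ 5 * (∑ k ∈ range 5, (dm j k * hh al u t k ^ 6 +
        m j k * (6 * hh al u t k ^ 5 *
        ∑ l ∈ range 6, (du k l * (t + al l) ^ 6 + u k l * (6 * (t + al l) ^ 5 * da l)))))) 0 := by
    unfold out
    refine HasDerivAt.fun_sum fun j _ => ?_
    have h3 := (hasDerivAt_qq al u m da du dm t j).fun_pow 6
    simpa using h3
  convert h using 1
  have e1 : ∀ D : ℕ → ℂ, ∑ j ∈ range 38, 6 * qq al u m t j ^ 5 * (∑ k ∈ range 5,
      (dm j k * hh al u t k ^ 6 + m j k * (6 * hh al u t k ^ 5 * D k))) =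
      (∑ j ∈ range 38, 6 * qq al u m t j ^ 5 * ∑ k ∈ range 5, hh al u t k ^ 6 * dm j k) +
        ∑ k ∈ range 5, HH al u m t k * D k := by
    intro D
    simp only [HH, sum_add_distrib, mul_add, mul_sum, sum_mul]
    congr 1
    · exact sum_congr rfl fun j _ => sum_congr rfl fun k _ => by ring
    · rw [sum_comm]
      exact sum_congr rfl fun j _ => sum_congr rfl fun k _ => by ring
  have e2 : ∑ k ∈ range 5, HH al u m t k * ∑ l ∈ range 6, (du k l * (t + al l) ^ 6 +
      u k l * (6 * (t + al l) ^ 5 * da l)) =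
      (∑ k ∈ range 5, HH al u m t k * ∑ l ∈ range 6, (t + al l) ^ 6 * du k l) +
        ∑ l ∈ range 6, GG al u m t l * da l := by
    simp only [GG, sum_add_distrib, mul_add, mul_sum, sum_mul]
    congr 1
    · exact sum_congr rfl fun j _ => sum_congr rfl fun k _ => by ring
    · rw [sum_comm]
      exact sum_congr rfl fun j _ => sum_congr rfl fun k _ => by ring
  rw [e1, e2, rev, add_assoc]

/-- the integral matrix of directional derivatives -/
def DZ : Matrix (Fin 217) (Fin 217) ℤ := Matrix.of fun t i =>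
  rev (fun l => (alN l : ℤ)) (fun k l => (uN k l : ℤ)) (fun j k => (mN j k : ℤ))
    (fun l => (baN i l : ℤ)) (fun k l => (buN i k l : ℤ)) (fun j k => (bmN i j k : ℤ)) ((t : ℕ) : ℤ)

theorem DZ_mod : (Int.castRingHom (ZMod 251)).mapMatrix DZ = 1 := by
  ext t i
  rw [RingHom.mapMatrix_apply, Matrix.map_apply, DZ, Matrix.of_apply, map_rev]
  simp only [eq_intCast, Int.cast_natCast]
  rw [cert t i t.2 i.2, Matrix.one_apply]
  by_cases h : t = i
  · simp [h]
  · have : ¬ ((i : ℕ) = t) := fun h' => h (Fin.ext h'.symm)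
    simp [h, this]

theorem DZ_det : DZ.det ≠ 0 := by
  intro h
  have h1 : (Int.castRingHom (ZMod 251)) DZ.det = 1 := by
    rw [RingHom.map_det, DZ_mod, Matrix.det_one]
  rw [h, map_zero] at h1
  exact absurd h1 (by decide)

/-- the complex matrix of directional derivatives -/
noncomputable def DC : Matrix (Fin 217) (Fin 217) ℂ := (Int.castRingHom ℂ).mapMatrix DZ

theorem DC_apply (t i : Fin 217) : DC t i =
    rev (fun l => (alN l : ℂ)) (fun k l => (uN k l : ℂ)) (fun j k => (mN j k : ℂ))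
    (fun l => (baN i l : ℂ)) (fun k l => (buN i k l : ℂ)) (fun j k => (bmN i j k : ℂ))
      ((t : ℕ) : ℂ) := by
  rw [DC, RingHom.mapMatrix_apply, Matrix.map_apply, DZ, Matrix.of_apply, map_rev]
  simp only [eq_intCast, Int.cast_natCast]

theorem DC_det : DC.det ≠ 0 := by
  rw [DC, ← RingHom.map_det]
  simpa using DZ_det

/-- weights depending on `x ∈ ℂ ^ 217` -/
noncomputable def alX (x : Fin 217 → ℂ) (l : ℕ) : ℂ := (alN l : ℂ) + ∑ i, x i * (baN i l : ℂ)
noncomputable def uX (x : Fin 217 → ℂ) (k l : ℕ) : ℂ := (uN k l : ℂ) + ∑ i, x i * (buN i k l : ℂ)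
noncomputable def mX (x : Fin 217 → ℂ) (j k : ℕ) : ℂ := (mN j k : ℂ) + ∑ i, x i * (bmN i j k : ℂ)

/-- the values of the network at the points `0, ..., 216` -/
noncomputable def Psi (x : Fin 217 → ℂ) (t : Fin 217) : ℂ :=
  out (alX x) (uX x) (mX x) ((t : ℕ) : ℂ)

theorem contDiff_Psi : ContDiff ℂ 1 Psi := by
  unfold Psi out qq hh alX uX mX
  fun_prop

theorem fderiv_single (i : Fin 217) :
    fderiv ℂ Psi 0 (Pi.single i 1) = fun t => DC t i := by
  have h1 : HasFDerivAt Psi (fderiv ℂ Psi 0) 0 :=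
    (contDiff_Psi.differentiable one_ne_zero 0).hasFDerivAt
  have h2 : HasDerivAt (fun e : ℂ => e • (Pi.single i 1 : Fin 217 → ℂ)) (Pi.single i 1) 0 := by
    simpa using (hasDerivAt_id (0 : ℂ)).smul_const (Pi.single i 1 : Fin 217 → ℂ)
  have h3 : HasDerivAt (fun e : ℂ => Psi (e • (Pi.single i 1 : Fin 217 → ℂ)))
      (fderiv ℂ Psi 0 (Pi.single i 1)) 0 := by
    have h1' : HasFDerivAt Psi (fderiv ℂ Psi 0) ((0 : ℂ) • (Pi.single i 1 : Fin 217 → ℂ)) := by
      simpa using h1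
    exact h1'.comp_hasDerivAt 0 h2
  refine h3.unique ?_
  rw [hasDerivAt_pi]
  intro t
  rw [DC_apply]
  have h4 := hasDerivAt_out (fun l => (alN l : ℂ)) (fun k l => (uN k l : ℂ))
    (fun j k => (mN j k : ℂ)) (fun l => (baN i l : ℂ)) (fun k l => (buN i k l : ℂ))
    (fun j k => (bmN i j k : ℂ)) ((t : ℕ) : ℂ)
  have hs : ∀ (e : ℂ) (f : Fin 217 → ℂ),
      ∑ i', (e • (Pi.single i 1 : Fin 217 → ℂ)) i' * f i' = e * f i := by
    intro e f
    rw [Finset.sum_eq_single i]
    · simp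
    · intro b _ hb; simp [hb]
    · simp
  have hfun : (fun e : ℂ => Psi (e • (Pi.single i 1 : Fin 217 → ℂ)) t) =
      (fun e : ℂ => out (fun l => (alN l : ℂ) + e * (baN i l : ℂ))
        (fun k l => (uN k l : ℂ) + e * (buN i k l : ℂ))
        (fun j k => (mN j k : ℂ) + e * (bmN i j k : ℂ)) ((t : ℕ) : ℂ)) := by
    funext e
    have e1 : alX (e • (Pi.single i 1 : Fin 217 → ℂ)) =
        (fun l => (alN l : ℂ) + e * (baN i l : ℂ)) := by
      funext l; rw [alX, hs e fun i => (baN i l : ℂ)]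
    have e2 : uX (e • (Pi.single i 1 : Fin 217 → ℂ)) =
        (fun k l => (uN k l : ℂ) + e * (buN i k l : ℂ)) := by
      funext k l; rw [uX, hs e fun i => (buN i k l : ℂ)]
    have e3 : mX (e • (Pi.single i 1 : Fin 217 → ℂ)) =
        (fun j k => (mN j k : ℂ) + e * (bmN i j k : ℂ)) := by
      funext j k; rw [mX, hs e fun i => (bmN i j k : ℂ)]
    rw [Psi, e1, e2, e3]
  rw [hfun]
  exact h4

theorem fderiv_apply (x : Fin 217 → ℂ) : fderiv ℂ Psi 0 x = DC.mulVec x := by
  have h : x = ∑ i, x i • (Pi.single i 1 : Fin 217 → ℂ) := by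
    rw [← pi_eq_sum_univ' x]
  conv_lhs => rw [h]
  rw [map_sum]
  simp only [map_smul, fderiv_single]
  ext t
  simp [Matrix.mulVec, dotProduct, mul_comm]

theorem range_fderiv : (fderiv ℂ Psi 0).range = ⊤ := by
  rw [LinearMap.range_eq_top]
  intro v
  refine ⟨(DC⁻¹).mulVec v, ?_⟩
  change fderiv ℂ Psi 0 _ = v
  rw [fderiv_apply, Matrix.mulVec_mulVec, Matrix.mul_nonsing_inv _ (Ne.isUnit DC_det),
    Matrix.one_mulVec]

/-- the values at the points `0, ..., 216` fill a non-empty open set -/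
theorem exists_open : ∃ O : Set (Fin 217 → ℂ), IsOpen O ∧ O.Nonempty ∧ ∀ v ∈ O, ∃ x, Psi x = v := by
  have h := (contDiff_Psi.contDiffAt (x := 0)).hasStrictFDerivAt one_ne_zero
  have h2 := h.map_nhds_eq_of_surj range_fderiv
  have h3 : Set.range Psi ∈ nhds (Psi 0) := by
    rw [← h2, Filter.mem_map]
    exact Filter.univ_mem' fun x => ⟨x, rfl⟩
  obtain ⟨O, hO, hO', hO''⟩ := mem_nhds_iff.1 h3
  exact ⟨O, hO', ⟨_, hO''⟩, fun v hv => hO hv⟩

end Pool.Agent.K4H35.PolyNet
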