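import Pool.Agent.K4H35.PolyNet.Nonfill
import Pool.Agent.K4H35.PolyNet.Deriv

/-!
The network `(2,6,5,38,1)` is filling.
-/

set_option autoImplicit false

namespace Pool.Agent.K4H35.PolyNet

open Finset MvPolynomial

/-- weights with some entries normalised -/
noncomputable def WW (al : ℕ → ℂ) (u m : ℕ → ℕ → ℂ) : Fin 4 → ℕ → ℕ → ℂ :=
  ![fun l i => if i = 0 then 1 else al l, u, m, fun p _ => if p = 0 then 1 else 0]

theorem net_WW_ne (al : ℕ → ℂ) (u m : ℕ → ℕ → ℂ) (p : ℕ) (hp : p ≠ 0) :
    net 6 5 38 (WW al u m) p = 0 := by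
  unfold net
  refine sum_eq_zero fun j _ => ?_
  have : WW al u m 3 p j = 0 := if_neg hp
  rw [this, C_0, zero_mul]

theorem eval_net_WW (al : ℕ → ℂ) (u m : ℕ → ℕ → ℂ) (t : ℂ) :
    eval (fun i => if i = 0 then t else 1) (net 6 5 38 (WW al u m) 0) = out al u m t := by
  unfold net out
  simp only [map_sum, map_mul, map_pow, eval_C, eval_X]
  refine sum_congr rfl fun j _ => ?_
  have h3 : WW al u m 3 0 j = 1 := by simp [WW]
  rw [h3, one_mul, qq]
  refine congrArg (· ^ 6) (sum_congr rfl fun k _ => ?_)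
  have h2 : WW al u m 2 j k = m j k := rfl
  rw [h2, hh]
  refine congrArg (fun z => m j k * z ^ 6) (sum_congr rfl fun l _ => ?_)
  have h1 : WW al u m 1 k l = u k l := rfl
  rw [h1]
  refine congrArg (fun z => u k l * z ^ 6) ?_
  rw [sum_range_succ, sum_range_one]
  have h0 : WW al u m 0 l 0 = 1 := rfl
  have h1 : WW al u m 0 l 1 = al l := rfl
  rw [h0, h1]
  simp

/-- the weights depending on `x` -/
noncomputable def WX (x : Fin 217 → ℂ) : Fin 4 → ℕ → ℕ → ℂ := WW (alX x) (uX x) (mX x)

theorem net_WX_ne (x : Fin 217 → ℂ) (p : ℕ) (hp : p ≠ 0) : net 6 5 38 (WX x) p = 0 :=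
  net_WW_ne _ _ _ p hp

theorem eval_net_WX (x : Fin 217 → ℂ) (t : ℂ) :
    eval (fun i => if i = 0 then t else 1) (net 6 5 38 (WX x) 0) = out (alX x) (uX x) (mX x) t :=
  eval_net_WW _ _ _ t

/-- the coefficients of the network -/
noncomputable def cf (x : Fin 217 → ℂ) (i : Fin 217) : ℂ := coeff (mono i) (net 6 5 38 (WX x) 0)

theorem coeff_net_WX (x : Fin 217 → ℂ) (p : ℕ × (ℕ →₀ ℕ)) :
    coeff p.2 (net 6 5 38 (WX x) p.1) = Function.extend emb (cf x) 0 p := by
  obtain ⟨q, s⟩ := p
  by_cases hi : ∃ i, emb i = (q, s)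
  · obtain ⟨i, hi⟩ := hi
    rw [← hi, emb_injective.extend_apply]
    rfl
  · rw [Function.extend_apply' _ _ _ hi]
    by_cases hq : q = 0
    · subst hq
      by_contra h
      obtain ⟨i, h'⟩ := support_net 6 5 38 (WX x) 0 s (by simpa using h)
      exact hi ⟨i, by rw [emb, h']⟩
    · simp only
      rw [net_WX_ne x q hq, coeff_zero]
      rfl

theorem net_eq_sum (x : Fin 217 → ℂ) :
    net 6 5 38 (WX x) 0 = ∑ i : Fin 217, monomial (mono i) (cf x i) := by
  ext s
  rw [coeff_sum]
  simp only [coeff_monomial]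
  by_cases hs : ∃ i : Fin 217, mono i = s
  · obtain ⟨i, rfl⟩ := hs
    rw [Finset.sum_eq_single i]
    · simp [cf]
    · intro j _ hj
      rw [if_neg]
      intro h
      exact hj (emb_injective (by rw [emb, emb, h]))
    · simp
  · rw [Finset.sum_eq_zero]
    · by_contra h
      exact hs (support_net 6 5 38 (WX x) 0 s h)
    · intro j _
      rw [if_neg]
      exact fun h => hs ⟨j, h⟩

/-- values of the polynomial with given coefficients -/
noncomputable def VV (z : Fin 217 → ℂ) (t : Fin 217) : ℂ := ∑ i : Fin 217, z i * ((t : ℕ) : ℂ) ^ (i : ℕ)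

theorem VV_cf (x : Fin 217 → ℂ) : VV (cf x) = Psi x := by
  funext t
  rw [Psi, ← eval_net_WX, net_eq_sum, map_sum, VV]
  refine sum_congr rfl fun i _ => ?_
  rw [eval_monomial]
  congr 1
  rw [mono, Finsupp.prod_add_index' (by simp) (by intros; rw [pow_add]),
    Finsupp.prod_single_index (by simp), Finsupp.prod_single_index (by simp)]
  simp

theorem VV_injective : Function.Injective VV := by
  intro z z' h
  have h1 : (Matrix.vandermonde (fun t : Fin 217 => ((t : ℕ) : ℂ))).det ≠ 0 := by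
    rw [Matrix.det_vandermonde_ne_zero_iff]
    intro i j hij
    have : ((i : ℕ) : ℂ) = ((j : ℕ) : ℂ) := hij
    exact Fin.ext (by exact_mod_cast this)
  have h2 : ∀ z, VV z = (Matrix.vandermonde (fun t : Fin 217 => ((t : ℕ) : ℂ))).mulVec z := by
    intro z
    funext t
    simp [VV, Matrix.mulVec, dotProduct, Matrix.vandermonde_apply, mul_comm]
  rw [h2, h2] at h
  exact Matrix.mulVec_injective_of_isUnit ((Matrix.isUnit_iff_isUnit_det _).2 (Ne.isUnit h1)) h

theorem continuous_VV : Continuous VV := by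
  unfold VV
  fun_prop

theorem fill : Fill ![2, 6, 5, 38, 1] := by
  intro P hP c hc
  -- the polynomial in 217 variables
  let P' : MvPolynomial (Fin 217) ℂ := aeval (Function.extend emb (MvPolynomial.X : Fin 217 → _) 0) P
  have hP' : ∀ z, eval z P' = eval (Function.extend emb z 0) P := by
    intro z
    have h1 : (fun p => eval z (Function.extend emb (MvPolynomial.X : Fin 217 → _) 0 p)) =
        Function.extend emb z 0 := by
      funext p
      by_cases hi : ∃ i, emb i = p
      · obtain ⟨i, rfl⟩ := hi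
        rw [emb_injective.extend_apply, emb_injective.extend_apply, eval_X]
      · rw [Function.extend_apply' _ _ _ hi, Function.extend_apply' _ _ _ hi]
        simp
    rw [← h1, ← coe_aeval_eq_eval, ← coe_aeval_eq_eval]
    change (aeval z) (aeval _ P) = _
    rw [← AlgHom.comp_apply, comp_aeval]
    rfl
  have hx : ∀ x, eval (cf x) P' = 0 := by
    intro x
    rw [hP']
    have h1 := hP (WX x)
    have h2 : (fun p : ℕ × (ℕ →₀ ℕ) => coeff p.2 ((List.finRange 4).foldl
            (fun (h : ℕ → MvPolynomial ℕ ℂ) (k : Fin 4) (a : ℕ) =>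
              ∑ b ∈ Finset.range ((![2, 6, 5, 38, 1] : Fin (4 + 1) → ℕ) k.castSucc),
                MvPolynomial.C (WX x k a b) * h b ^ (if (k : ℕ) = 0 then 1 else 6))
            (fun b : ℕ => (MvPolynomial.X b : MvPolynomial ℕ ℂ)) p.1)) =
        Function.extend emb (cf x) 0 := by
      funext p
      rw [foldl_eq _ rfl, ← coeff_net_WX]
      rfl
    rw [h2] at h1
    exact h1
  obtain ⟨O, hO, ⟨v, hv⟩, hO'⟩ := exists_open
  have hU : IsOpen (VV ⁻¹' O) := hO.preimage continuous_VV
  have hU0 : ∃ z, z ∈ VV ⁻¹' O := by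
    obtain ⟨x, hx⟩ := hO' v hv
    exact ⟨cf x, by rw [Set.mem_preimage, VV_cf, hx]; exact hv⟩
  have hUz : ∀ z ∈ VV ⁻¹' O, eval z P' = 0 := by
    intro z hz
    obtain ⟨x, hx'⟩ := hO' _ hz
    have : cf x = z := VV_injective (by rw [VV_cf, hx'])
    rw [← this]
    exact hx x
  have hzero : P' = 0 := by
    obtain ⟨z0, hz0⟩ := hU0
    obtain ⟨ε, hε, hball⟩ := Metric.isOpen_iff.1 hU z0 hz0
    refine MvPolynomial.funext_set (fun i => Metric.ball (z0 i) ε) (fun i => ?_) ?_
    · exact Set.Infinite.mono subset_rfl (infinite_of_mem_nhds (z0 i) (Metric.ball_mem_nhds _ hε))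
    · intro z hz
      rw [map_zero]
      apply hUz
      apply hball
      rw [← ball_pi _ hε] at hz
      exact hz
  have hcext : c = Function.extend emb (fun i => c (emb i)) 0 := by
    funext p
    by_cases hi : ∃ i, emb i = p
    · obtain ⟨i, rfl⟩ := hi
      rw [emb_injective.extend_apply]
    · rw [Function.extend_apply' _ _ _ hi]
      by_contra h
      obtain ⟨h1, h2, h3⟩ := hc p h
      obtain ⟨i, hi'⟩ := exists_mono p.2 h2 h3
      apply hi
      refine ⟨i, ?_⟩
      have h4 : p.1 < 1 := h1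
      have : p.1 = 0 := by omega
      rw [emb, hi', ← this]
  rw [hcext, ← hP', hzero, map_zero]

end Pool.Agent.K4H35.PolyNet
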