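import Mathlib

/-!
Polynomial networks with four layers and activation `x ^ 6`, as in the frozen statement.
-/

set_option autoImplicit false

namespace Pool.Agent.K4H35.PolyNet

open Finset MvPolynomial

/-- the network with two inputs, hidden widths `a, b, c` and activation `x ^ 6` -/
noncomputable def net {R : Type*} [CommRing R] (a b c : ℕ) (W : Fin 4 → ℕ → ℕ → R) (p : ℕ) :
    MvPolynomial ℕ R :=
  ∑ j ∈ range c, C (W 3 p j) * (∑ k ∈ range b, C (W 2 j k) * (∑ l ∈ range a, C (W 1 k l) *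
    (∑ i ∈ range 2, C (W 0 l i) * X i ^ 1) ^ 6) ^ 6) ^ 6

/-- the filling condition of the frozen statement, for four layers and `r = 6` -/
def Fill (e : Fin (4 + 1) → ℕ) : Prop :=
    ∀ P : MvPolynomial (ℕ × (ℕ →₀ ℕ)) ℂ,
      (∀ W : Fin 4 → ℕ → ℕ → ℂ,
        MvPolynomial.eval (fun p : ℕ × (ℕ →₀ ℕ) => MvPolynomial.coeff p.2
          ((List.finRange 4).foldl
            (fun (h : ℕ → MvPolynomial ℕ ℂ) (k : Fin 4) (a : ℕ) =>
              ∑ b ∈ Finset.range (e k.castSucc),
                MvPolynomial.C (W k a b) * h b ^ (if (k : ℕ) = 0 then 1 else 6))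
            (fun b : ℕ => (MvPolynomial.X b : MvPolynomial ℕ ℂ)) p.1)) P = 0) →
      ∀ c : ℕ × (ℕ →₀ ℕ) → ℂ,
        (∀ p : ℕ × (ℕ →₀ ℕ), c p ≠ 0 →
          p.1 < e (Fin.last 4) ∧ (∑ b ∈ p.2.support, p.2 b) = 6 ^ (4 - 1) ∧
            ∀ b ∈ p.2.support, b < e 0) →
        MvPolynomial.eval c P = 0

theorem foldl_eq (e : Fin (4 + 1) → ℕ) (h0 : e 0 = 2) (W : Fin 4 → ℕ → ℕ → ℂ) (p : ℕ) :
    (List.finRange 4).foldl
            (fun (h : ℕ → MvPolynomial ℕ ℂ) (k : Fin 4) (a : ℕ) =>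
              ∑ b ∈ Finset.range (e k.castSucc),
                MvPolynomial.C (W k a b) * h b ^ (if (k : ℕ) = 0 then 1 else 6))
            (fun b : ℕ => (MvPolynomial.X b : MvPolynomial ℕ ℂ)) p = net (e 1) (e 2) (e 3) W p := by
  have : List.finRange 4 = [0, 1, 2, 3] := by decide
  rw [this, net]
  simp only [List.foldl_cons, List.foldl_nil]
  have e0 : e (Fin.castSucc (0 : Fin 4)) = 2 := h0
  have e1 : e (Fin.castSucc (1 : Fin 4)) = e 1 := rfl
  have e2 : e (Fin.castSucc (2 : Fin 4)) = e 2 := rfl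
  have e3 : e (Fin.castSucc (3 : Fin 4)) = e 3 := rfl
  rw [e0, e1, e2, e3]
  have f0 : (if ((0 : Fin 4) : ℕ) = 0 then 1 else 6) = 1 := rfl
  have f1 : (if ((1 : Fin 4) : ℕ) = 0 then 1 else 6) = 6 := rfl
  have f2 : (if ((2 : Fin 4) : ℕ) = 0 then 1 else 6) = 6 := rfl
  have f3 : (if ((3 : Fin 4) : ℕ) = 0 then 1 else 6) = 6 := rfl
  simp only [f0, f1, f2, f3]

theorem map_net {R S : Type*} [CommRing R] [CommRing S] (f : R →+* S) (a b c : ℕ)
    (W : Fin 4 → ℕ → ℕ → R) (p : ℕ) :
    MvPolynomial.map f (net a b c W p) = net a b c (fun k i j => f (W k i j)) p := by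
  simp only [net, map_sum, map_mul, map_pow, map_C, map_X]

/-- the exponent vectors of degree 216 in two variables -/
noncomputable def mono (i : ℕ) : ℕ →₀ ℕ := Finsupp.single 0 i + Finsupp.single 1 (216 - i)

/-- the coordinates of the ambient space -/
noncomputable def emb (i : Fin 217) : ℕ × (ℕ →₀ ℕ) := (0, mono i)

theorem mono_zero (i : ℕ) : mono i 0 = i := by simp [mono]

theorem emb_injective : Function.Injective emb := by
  intro i j h
  have h1 : mono i = mono j := congrArg Prod.snd h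
  have h2 := DFunLike.congr_fun h1 0
  rw [mono_zero, mono_zero] at h2
  exact Fin.ext h2

theorem exists_mono (s : ℕ →₀ ℕ) (h1 : (∑ b ∈ s.support, s b) = 216)
    (h2 : ∀ b ∈ s.support, b < 2) : ∃ i : Fin 217, mono i = s := by
  have h3 : s.support ⊆ {0, 1} := by
    intro b hb
    have := h2 b hb
    interval_cases b <;> simp
  have h4 : s 0 + s 1 = 216 := by
    rw [← h1, Finset.sum_subset h3 (fun x _ hx => by simpa using hx)]
    simp
  refine ⟨⟨s 0, by omega⟩, ?_⟩
  ext b
  rcases Nat.lt_or_ge b 2 with hb | hb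
  · interval_cases b
    · simp [mono]
    · simp [mono]; omega
  · have : s b = 0 := by
      by_contra h
      exact absurd (h2 b (by simpa using h)) (by omega)
    have h0 : b ≠ 0 := by omega
    have h1 : b ≠ 1 := by omega
    simp [mono, this, Finsupp.single_apply, h0.symm, h1.symm]

theorem homog_net {R : Type*} [CommRing R] (a b c : ℕ) (W : Fin 4 → ℕ → ℕ → R) (p : ℕ) :
    (net a b c W p).IsHomogeneous 216 := by
  unfold net
  refine IsHomogeneous.sum _ _ _ fun j _ => ?_
  rw [show 216 = 0 + 36 * 6 by norm_num]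
  refine (isHomogeneous_C _ _).mul (IsHomogeneous.pow (IsHomogeneous.sum _ _ _ fun k _ => ?_) 6)
  rw [show 36 = 0 + 6 * 6 by norm_num]
  refine (isHomogeneous_C _ _).mul (IsHomogeneous.pow (IsHomogeneous.sum _ _ _ fun l _ => ?_) 6)
  rw [show 6 = 0 + 1 * 6 by norm_num]
  refine (isHomogeneous_C _ _).mul (IsHomogeneous.pow (IsHomogeneous.sum _ _ _ fun l _ => ?_) 6)
  rw [show 1 = 0 + 1 * 1 by norm_num]
  exact (isHomogeneous_C _ _).mul ((isHomogeneous_X _ _).pow 1)

theorem supported_net {R : Type*} [CommRing R] (a b c : ℕ) (W : Fin 4 → ℕ → ℕ → R) (p : ℕ) :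
    net a b c W p ∈ supported R (Set.Iio 2 : Set ℕ) := by
  unfold net
  refine sum_mem fun j _ => mul_mem (Subalgebra.algebraMap_mem _ _) (pow_mem ?_ _)
  refine sum_mem fun j _ => mul_mem (Subalgebra.algebraMap_mem _ _) (pow_mem ?_ _)
  refine sum_mem fun j _ => mul_mem (Subalgebra.algebraMap_mem _ _) (pow_mem ?_ _)
  refine sum_mem fun i hi => mul_mem (Subalgebra.algebraMap_mem _ _) (pow_mem ?_ _)
  exact Algebra.subset_adjoin ⟨i, mem_range.1 hi, rfl⟩

theorem support_net {R : Type*} [CommRing R] (a b c : ℕ) (W : Fin 4 → ℕ → ℕ → R) (p : ℕ)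
    (s : ℕ →₀ ℕ) (hs : coeff s (net a b c W p) ≠ 0) : ∃ i : Fin 217, mono i = s := by
  refine exists_mono s ?_ ?_
  · by_contra h
    exact hs ((homog_net a b c W p).coeff_eq_zero (by rwa [Finsupp.degree_apply]))
  · intro b' hb
    have h1 := (mem_supported.1 (supported_net a b c W p))
    have h2 : b' ∈ (net a b c W p).vars := by
      rw [mem_vars]
      exact ⟨s, by rwa [mem_support_iff], hb⟩
    exact h1 (by exact_mod_cast h2)

end Pool.Agent.K4H35.PolyNet
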