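import Pool.Agent.K4H35.PolyNet.Net

/-!
A network with few parameters is not filling.
-/

set_option autoImplicit false

namespace Pool.Agent.K4H35.PolyNet

open Finset MvPolynomial

section scale

variable {K : Type*} [Field K]

theorem scale_sum (m : ℕ) (w A : ℕ → K) (κ : K) (hκ : κ ≠ 0) (g : ℕ → MvPolynomial ℕ K) :
    ∑ l ∈ range m, C (w l) * (C (A l) * g l) ^ 6 =
      C κ * ∑ l ∈ range m, C (w l * A l ^ 6 / κ) * g l ^ 6 := by
  rw [mul_sum]
  refine sum_congr rfl fun l _ => ?_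
  rw [mul_pow, ← map_pow, ← mul_assoc, ← mul_assoc, ← C_mul, ← C_mul]
  congr 2
  field_simp

/-- the normalised weights -/
def norm (W : Fin 4 → ℕ → ℕ → K) : Fin 4 → ℕ → ℕ → K :=
  ![fun l i => W 0 l i / W 0 l 0,
    fun k l => W 1 k l * W 0 l 0 ^ 6 / (W 1 k 0 * W 0 0 0 ^ 6),
    fun j k => W 2 j k * (W 1 k 0 * W 0 0 0 ^ 6) ^ 6 / (W 2 j 0 * (W 1 0 0 * W 0 0 0 ^ 6) ^ 6),
    fun p j => W 3 p j * (W 2 j 0 * (W 1 0 0 * W 0 0 0 ^ 6) ^ 6) ^ 6]

theorem net_norm (a b c : ℕ) (W : Fin 4 → ℕ → ℕ → K) (h0 : ∀ l, W 0 l 0 ≠ 0)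
    (h1 : ∀ l, W 1 l 0 ≠ 0) (h2 : ∀ l, W 2 l 0 ≠ 0) (p : ℕ) :
    net a b c W p = net a b c (norm W) p := by
  have e0 : ∀ l, ∑ i ∈ range 2, C (W 0 l i) * (X i : MvPolynomial ℕ K) ^ 1 =
      C (W 0 l 0) * ∑ i ∈ range 2, C (norm W 0 l i) * X i ^ 1 := by
    intro l
    rw [mul_sum]
    refine sum_congr rfl fun i _ => ?_
    rw [← mul_assoc, ← C_mul]
    congr 2
    change W 0 l i = W 0 l 0 * (W 0 l i / W 0 l 0)
    have := h0 l
    field_simp
  have hk : ∀ k, W 1 k 0 * W 0 0 0 ^ 6 ≠ 0 := fun k => mul_ne_zero (h1 k) (pow_ne_zero _ (h0 0))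
  have hm : ∀ j, W 2 j 0 * (W 1 0 0 * W 0 0 0 ^ 6) ^ 6 ≠ 0 :=
    fun j => mul_ne_zero (h2 j) (pow_ne_zero _ (hk 0))
  unfold net
  simp only [e0]
  have e1 : ∀ k, ∑ l ∈ range a, C (W 1 k l) * (C (W 0 l 0) * ∑ i ∈ range 2,
      C (norm W 0 l i) * (X i : MvPolynomial ℕ K) ^ 1) ^ 6 = C (W 1 k 0 * W 0 0 0 ^ 6) *
      ∑ l ∈ range a, C (norm W 1 k l) * (∑ i ∈ range 2,
      C (norm W 0 l i) * (X i : MvPolynomial ℕ K) ^ 1) ^ 6 := by
    intro k
    exact scale_sum a (W 1 k) (fun l => W 0 l 0) _ (hk k) _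
  simp only [e1]
  have e2 : ∀ j, ∑ k ∈ range b, C (W 2 j k) * (C (W 1 k 0 * W 0 0 0 ^ 6) *
      ∑ l ∈ range a, C (norm W 1 k l) * (∑ i ∈ range 2,
      C (norm W 0 l i) * (X i : MvPolynomial ℕ K) ^ 1) ^ 6) ^ 6 =
      C (W 2 j 0 * (W 1 0 0 * W 0 0 0 ^ 6) ^ 6) * ∑ k ∈ range b, C (norm W 2 j k) * (
      ∑ l ∈ range a, C (norm W 1 k l) * (∑ i ∈ range 2,
      C (norm W 0 l i) * (X i : MvPolynomial ℕ K) ^ 1) ^ 6) ^ 6 := by
    intro j
    exact scale_sum b (W 2 j) (fun k => W 1 k 0 * W 0 0 0 ^ 6) _ (hm j) _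
  simp only [e2]
  refine sum_congr rfl fun j _ => ?_
  rw [mul_pow, ← map_pow, ← mul_assoc, ← C_mul]
  rfl

end scale

/-- index set of the normalised parameters -/
abbrev Ix (a b c : ℕ) : Type := Fin a ⊕ (Fin b × Fin (a - 1)) ⊕ (Fin c × Fin (b - 1)) ⊕ Fin c

/-- the normalised parameters -/
def theta {K : Type*} (a b c : ℕ) (W : Fin 4 → ℕ → ℕ → K) : Ix a b c → K
  | Sum.inl l => W 0 l 1
  | Sum.inr (Sum.inl (k, l)) => W 1 k (l + 1)
  | Sum.inr (Sum.inr (Sum.inl (j, k))) => W 2 j (k + 1)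
  | Sum.inr (Sum.inr (Sum.inr j)) => W 3 0 j

theorem exists_lift {K : Type*} [CommRing K] [Algebra ℂ K] (a b c : ℕ) (W : Fin 4 → ℕ → ℕ → K)
    (h0 : ∀ l, W 0 l 0 = 1) (h1 : ∀ l, W 1 l 0 = 1) (h2 : ∀ l, W 2 l 0 = 1) :
    ∃ N : MvPolynomial ℕ (MvPolynomial (Ix a b c) ℂ),
      MvPolynomial.map (aeval (theta a b c W)).toRingHom N = net a b c W 0 := by
  have key : net a b c W 0 ∈ (MvPolynomial.map (aeval (theta a b c W)).toRingHom :
      MvPolynomial ℕ (MvPolynomial (Ix a b c) ℂ) →+* MvPolynomial ℕ K).range := by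
    have hC : ∀ v : Ix a b c, C (theta a b c W v) ∈ (MvPolynomial.map
        (aeval (theta a b c W)).toRingHom :
        MvPolynomial ℕ (MvPolynomial (Ix a b c) ℂ) →+* MvPolynomial ℕ K).range := by
      intro v
      refine ⟨C (X v), ?_⟩
      rw [map_C]
      simp
    have hone : ∀ x : K, x = 1 → C x ∈ (MvPolynomial.map
        (aeval (theta a b c W)).toRingHom :
        MvPolynomial ℕ (MvPolynomial (Ix a b c) ℂ) →+* MvPolynomial ℕ K).range := by
      rintro x rfl
      rw [C_1]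
      exact one_mem _
    unfold net
    refine sum_mem fun j hj => mul_mem ?_ (pow_mem (sum_mem fun k hk => mul_mem ?_ (pow_mem
      (sum_mem fun l hl => mul_mem ?_ (pow_mem (sum_mem fun i hi => mul_mem ?_ (pow_mem ?_ _))
        _)) _)) _)
    · exact hC (Sum.inr (Sum.inr (Sum.inr ⟨j, mem_range.1 hj⟩)))
    · cases k with
      | zero => exact hone _ (h2 j)
      | succ k =>
        have := mem_range.1 hk
        exact hC (Sum.inr (Sum.inr (Sum.inl (⟨j, mem_range.1 hj⟩, ⟨k, by omega⟩))))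
    · cases l with
      | zero => exact hone _ (h1 k)
      | succ l =>
        have := mem_range.1 hl
        exact hC (Sum.inr (Sum.inl (⟨k, mem_range.1 hk⟩, ⟨l, by omega⟩)))
    · have := mem_range.1 hi
      interval_cases i
      · exact hone _ (h0 l)
      · exact hC (Sum.inl ⟨l, mem_range.1 hl⟩)
    · exact ⟨X i, by rw [map_X]⟩
  exact key

theorem dependent {ι : Type} [Fintype ι] (n : ℕ) (h : Fintype.card ι < n)
    (Y : Fin n → MvPolynomial ι ℂ) : ∃ P : MvPolynomial (Fin n) ℂ, P ≠ 0 ∧ aeval Y P = 0 := by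
  by_contra hc
  push Not at hc
  have hi : AlgebraicIndependent ℂ Y := by
    rw [AlgebraicIndependent, injective_iff_map_eq_zero]
    intro P hP
    by_contra h'
    exact hc P h' hP
  have h1 := hi.cardinalMk_le_trdeg
  rw [MvPolynomial.trdeg_of_isDomain] at h1
  simp at h1
  omega

theorem nonfill (e : Fin (4 + 1) → ℕ) (h0 : e 0 = 2) (h4 : e (Fin.last 4) = 1)
    (hn : e 1 + e 2 * (e 1 - 1) + e 3 * (e 2 - 1) + e 3 < 217) : ¬ Fill e := by
  intro hF
  obtain ⟨a, ha⟩ : ∃ a, a = e 1 := ⟨_, rfl⟩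
  obtain ⟨b, hb⟩ : ∃ a, a = e 2 := ⟨_, rfl⟩
  obtain ⟨c, hc⟩ : ∃ a, a = e 3 := ⟨_, rfl⟩
  rw [← ha, ← hb, ← hc] at hn
  let R := MvPolynomial (Fin 4 × ℕ × ℕ) ℂ
  let K := FractionRing R
  let Wg : Fin 4 → ℕ → ℕ → R := fun k i j => X (k, i, j)
  let WK : Fin 4 → ℕ → ℕ → K := fun k i j => algebraMap R K (Wg k i j)
  have hne : ∀ k i j, WK k i j ≠ 0 := fun k i j => by
    simp only [WK, ne_eq, FaithfulSMul.algebraMap_eq_zero_iff]
    exact X_ne_zero _
  obtain ⟨N, hN⟩ := exists_lift a b c (norm WK) (fun l => div_self (hne 0 l 0))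
    (fun l => div_self (mul_ne_zero (hne _ _ _) (pow_ne_zero _ (hne _ _ _))))
    (fun l => div_self (mul_ne_zero (hne _ _ _) (pow_ne_zero _ (mul_ne_zero (hne _ _ _)
      (pow_ne_zero _ (hne _ _ _))))))
  rw [← net_norm a b c WK (fun l => hne _ _ _) (fun l => hne _ _ _) (fun l => hne _ _ _)] at hN
  obtain ⟨P', hP0, hP⟩ := dependent (ι := Ix a b c) 217 (by simpa [add_assoc] using hn)
    (fun i => coeff (mono i) N)
  -- the coefficients of the generic network satisfy `P'`
  let y : Fin 217 → R := fun i => coeff (mono i) (net a b c Wg 0)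
  have hy : ∀ i, algebraMap R K (y i) = aeval (theta a b c (norm WK)) (coeff (mono i) N) := by
    intro i
    have h1 : net a b c WK 0 = MvPolynomial.map (algebraMap R K) (net a b c Wg 0) := by
      rw [map_net]
    rw [h1] at hN
    have h2 := congrArg (coeff (mono i)) hN
    rw [coeff_map, coeff_map] at h2
    exact h2.symm
  have hyP : aeval y P' = 0 := by
    apply IsFractionRing.injective R K
    rw [map_zero, ← aeval_algebraMap_apply]
    have : (fun i => algebraMap R K (y i)) =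
        fun i : Fin 217 => aeval (theta a b c (norm WK)) (coeff (mono i) N) := funext hy
    have h3 : aeval (⇑(algebraMap R K) ∘ y) P' = aeval (theta a b c (norm WK))
        (aeval (fun i : Fin 217 => coeff (mono i) N) P') := by
      change aeval (fun i => algebraMap R K (y i)) P' = _
      rw [this, ← AlgHom.comp_apply, comp_aeval]
    rw [h3, hP, map_zero]
  have hspec : ∀ W : Fin 4 → ℕ → ℕ → ℂ,
      eval (fun i : Fin 217 => coeff (mono i) (net a b c W 0)) P' = 0 := by
    intro W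
    let φ : R →ₐ[ℂ] ℂ := aeval fun v => W v.1 v.2.1 v.2.2
    have h1 : ∀ i : Fin 217, φ (y i) = coeff (mono i) (net a b c W 0) := by
      intro i
      have h2 : net a b c W 0 = MvPolynomial.map φ.toRingHom (net a b c Wg 0) := by
        rw [map_net]
        congr 1
        funext k i j
        change W k i j = aeval (fun v : Fin 4 × ℕ × ℕ => W v.1 v.2.1 v.2.2) (X (k, i, j))
        rw [aeval_X]
      rw [h2, coeff_map]
      rfl
    have h3 : φ (aeval y P') = eval (fun i : Fin 217 => coeff (mono i) (net a b c W 0)) P' := by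
      rw [← AlgHom.comp_apply, comp_aeval, ← coe_aeval_eq_eval]
      simp only [h1]
      rfl
    rw [← h3, hyP, map_zero]
  have hmain := hF (rename emb P') (fun W => by
    rw [eval_rename]
    have h1 := hspec W
    have h2 : ((fun p : ℕ × (ℕ →₀ ℕ) => coeff p.2 ((List.finRange 4).foldl
            (fun (h : ℕ → MvPolynomial ℕ ℂ) (k : Fin 4) (a : ℕ) =>
              ∑ b ∈ Finset.range (e k.castSucc),
                MvPolynomial.C (W k a b) * h b ^ (if (k : ℕ) = 0 then 1 else 6))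
            (fun b : ℕ => (MvPolynomial.X b : MvPolynomial ℕ ℂ)) p.1)) ∘ emb) =
        fun i : Fin 217 => coeff (mono i) (net a b c W 0) := by
      funext i
      simp only [Function.comp, foldl_eq e h0 W, ha, hb, hc]
      rfl
    rw [h2]
    exact h1)
  apply hP0
  apply MvPolynomial.funext
  intro z
  have h1 := hmain (Function.extend emb z 0) (by
    intro p hp
    by_cases hi : ∃ i, emb i = p
    · obtain ⟨i, rfl⟩ := hi
      have h5 : (mono i).support ⊆ {0, 1} := by
        intro b hb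
        by_contra hb'
        simp only [Finset.mem_insert, Finset.mem_singleton, not_or] at hb'
        have : mono i b = 0 := by
          simp [mono, Finsupp.single_apply, Ne.symm hb'.1, Ne.symm hb'.2]
        simp [this] at hb
      refine ⟨by rw [h4]; exact Nat.zero_lt_one, ?_, ?_⟩
      · change ∑ b ∈ (mono i).support, (mono i) b = _
        rw [Finset.sum_subset h5 (fun x _ hx => by simpa using hx)]
        have := i.2
        simp [mono]
        omega
      · intro b hb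
        rw [h0]
        have := h5 hb
        simp only [Finset.mem_insert, Finset.mem_singleton] at this
        omega
    · rw [Function.extend_apply' _ _ _ hi] at hp
      exact absurd rfl hp)
  have h7 : Function.extend emb z 0 ∘ emb = z := Function.extend_comp emb_injective z 0
  rw [eval_rename, h7] at h1
  rw [h1, map_zero]

end Pool.Agent.K4H35.PolyNet
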