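import Pool.Agent.K4H35.PolyNet.Check

/-!
Meaning of the kernel check.
-/

set_option autoImplicit false

namespace Pool.Agent.K4H35.PolyNet

open Finset

theorem force_eq {β : Type} (n : ℕ) (k : ℕ → β) : force n k = k n := by
  cases n <;> rfl

theorem evalL_eq {β : Type} (l : List ℕ) (k : List ℕ → β) : evalL l k = k l := by
  induction l generalizing k with
  | nil => rfl
  | cons a l ih =>
    change force a (fun a' => evalL l fun as => k (a' :: as)) = _
    rw [force_eq, ih]

theorem dot_eq (l m : List ℕ) (n : ℕ) (h : l.length ≤ n) :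
    dot l m = ∑ i ∈ range n, l.getD i 0 * m.getD i 0 := by
  induction l generalizing m n with
  | nil => simp [dot]
  | cons a l ih =>
    cases m with
    | nil => simp [dot]
    | cons b m =>
      obtain ⟨n, rfl⟩ : ∃ n', n = n' + 1 := ⟨n - 1, by simp at h; omega⟩
      change a * b + dot l m = _
      rw [ih m n (by simpa using h), sum_range_succ']
      simp [add_comm]

theorem dot2_eq (h c : List ℕ) (M : List (List ℕ)) (n n' : ℕ) (hc : c.length ≤ n)
    (hh : h.length ≤ n') :
    dot2 h c M = ∑ j ∈ range n, c.getD j 0 * ∑ i ∈ range n', h.getD i 0 * (M.getD j []).getD i 0 := by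
  induction c generalizing M n with
  | nil => simp [dot2]
  | cons a c ih =>
    cases M with
    | nil => simp [dot2]
    | cons b M =>
      obtain ⟨n, rfl⟩ : ∃ n', n = n' + 1 := ⟨n - 1, by simp at hc; omega⟩
      change a * dot h b + dot2 h c M = _
      rw [ih M n (by simpa using hc), sum_range_succ', dot_eq h b n' hh]
      simp [add_comm]

theorem X_pos : 0 < X := by decide

theorem dig (m : ℕ) (c : ℕ → ℕ) (hc : ∀ i < m, c i < X) (k : ℕ) (hk : k < m) :
    (∑ i ∈ range m, c i * X ^ i) / X ^ k % X = c k := by
  induction k generalizing m c with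
  | zero =>
    obtain ⟨m, rfl⟩ : ∃ m', m = m' + 1 := ⟨m - 1, by omega⟩
    rw [sum_range_succ']
    have : ∑ i ∈ range m, c (i + 1) * X ^ (i + 1) = X * ∑ i ∈ range m, c (i + 1) * X ^ i := by
      rw [mul_sum]; refine sum_congr rfl fun i _ => by ring
    rw [this]
    simp only [pow_zero, mul_one, Nat.div_one, Nat.mul_add_mod]
    exact Nat.mod_eq_of_lt (hc 0 (by omega))
  | succ k ih =>
    obtain ⟨m, rfl⟩ : ∃ m', m = m' + 1 := ⟨m - 1, by omega⟩
    rw [sum_range_succ']
    have : ∑ i ∈ range m, c (i + 1) * X ^ (i + 1) = X * ∑ i ∈ range m, c (i + 1) * X ^ i := by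
      rw [mul_sum]; refine sum_congr rfl fun i _ => by ring
    rw [this, pow_succ' X k, ← Nat.div_div_eq_div_mul]
    have h0 : (X * ∑ i ∈ range m, c (i + 1) * X ^ i + c 0 * X ^ 0) / X =
        ∑ i ∈ range m, c (i + 1) * X ^ i := by
      rw [pow_zero, mul_one, Nat.mul_add_div X_pos, Nat.div_eq_of_lt (hc 0 (by omega)), add_zero]
    rw [h0]
    exact ih m (fun i => c (i + 1)) (fun i hi => hc (i + 1) (by omega)) (by omega)

theorem undig (m n : ℕ) (h : n < X ^ m) : n = ∑ k ∈ range m, (n / X ^ k % X) * X ^ k := by
  induction m generalizing n with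
  | zero => simp at h; simp [h]
  | succ m ih =>
    rw [sum_range_succ']
    have h1 : n / X < X ^ m := Nat.div_lt_of_lt_mul (by rw [← pow_succ']; exact h)
    have h2 := ih (n / X) h1
    have h3 : ∑ k ∈ range m, n / X ^ (k + 1) % X * X ^ (k + 1) = X * (n / X) := by
      conv_rhs => rw [h2, mul_sum]
      refine sum_congr rfl fun i _ => ?_
      rw [Nat.div_div_eq_div_mul, ← pow_succ']; ring
    rw [h3]
    simp [Nat.div_add_mod]

theorem chk_spec (n t m : ℕ) (h : chk n t m = true) (k : ℕ) (hk : k < m) :
    n / X ^ k % X % 251 = if k = t then 1 else 0 := by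
  induction m with
  | zero => omega
  | succ m ih =>
    have h' : chk n t m = true ∧ Nat.beq (n / X ^ m % X % 251) (cond (Nat.beq m t) 1 0) = true := by
      have : (chk n t m && Nat.beq (n / X ^ m % X % 251) (cond (Nat.beq m t) 1 0)) = true := h
      simpa [Bool.and_eq_true] using this
    rcases Nat.lt_succ_iff_lt_or_eq.1 hk with h1 | rfl
    · exact ih h'.1 h1
    · rw [Nat.eq_of_beq_eq_true h'.2]
      by_cases e : k = t
      · simp [e]
      · have : Nat.beq k t = false := by
          rw [← Bool.not_eq_true]; exact fun h => e (Nat.eq_of_beq_eq_true h)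
        simp [e, this]

theorem chkAll_spec (a n : ℕ) (h : chkAll a n = true) (k : ℕ) (hk : k < n) :
    chk (S (a + k)) (a + k) 217 = true := by
  induction n with
  | zero => omega
  | succ n ih =>
    have h' : chkAll a n = true ∧ chk (S (a + n)) (a + n) 217 = true := by
      have : (chkAll a n && force (S (a + n)) fun x => chk x (a + n) 217) = true := h
      rw [force_eq] at this
      simpa [Bool.and_eq_true] using this
    rcases Nat.lt_succ_iff_lt_or_eq.1 hk with h1 | rfl
    · exact ih h'.1 h1
    · exact h'.2

theorem chkB_spec (n m : ℕ) (h : chkB n m = true) (k : ℕ) (hk : k < m) :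
    n / X ^ k % X < 251 := by
  induction m with
  | zero => omega
  | succ m ih =>
    have h' : chkB n m = true ∧ Nat.blt (n / X ^ m % X) 251 = true := by
      have : (chkB n m && Nat.blt (n / X ^ m % X) 251) = true := h
      simpa [Bool.and_eq_true] using this
    rcases Nat.lt_succ_iff_lt_or_eq.1 hk with h1 | rfl
    · exact ih h'.1 h1
    · have := h'.2
      simpa [Nat.blt_eq] using this

/-- `n` has 217 digits, all smaller than 251 -/
def Good (n : ℕ) : Prop := n < X ^ 217 ∧ ∀ k < 217, n / X ^ k % X < 251

theorem good_zero : Good 0 := ⟨pow_pos X_pos _, fun k _ => by simp⟩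

theorem chkBL_spec (l : List ℕ) (h : chkBL l = true) (i : ℕ) : Good (l.getD i 0) := by
  induction l generalizing i with
  | nil => simpa using good_zero
  | cons a l ih =>
    have h' : Nat.blt a (X ^ 217) = true ∧ chkB a 217 = true ∧ chkBL l = true := by
      have : (Nat.blt a (X ^ 217) && chkB a 217 && chkBL l) = true := h
      simpa [Bool.and_eq_true, and_assoc] using this
    cases i with
    | zero => exact ⟨by simpa [Nat.blt_eq] using h'.1, fun k hk => chkB_spec a 217 h'.2.1 k hk⟩
    | succ i => simpa using ih h'.2.2 i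

theorem chkBLL_spec (l : List (List ℕ)) (h : chkBLL l = true) (j i : ℕ) :
    Good ((l.getD j []).getD i 0) := by
  induction l generalizing j with
  | nil => simpa using good_zero
  | cons a l ih =>
    have h' : chkBL a = true ∧ chkBLL l = true := by
      have : (chkBL a && chkBLL l) = true := h
      simpa [Bool.and_eq_true] using this
    cases j with
    | zero => exact chkBL_spec a h'.1 i
    | succ j => simpa using ih h'.2 j

end Pool.Agent.K4H35.PolyNet
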